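import Pool.Agent.P8H12.SO.Stm2

set_option autoImplicit false

/-!
# Project DV, packages MIN and IDX
-/

namespace Pool.Agent.P8H75.DV

open Pool.Agent.P8H12.ST

variable {n : ℕ}

lemma pow_cong (q : ℤ) (M : Matrix (Fin n) (Fin n) ℤ) (h : ∃ B : Matrix (Fin n) (Fin n) ℤ, M = 1 + q • B)
    (k : ℕ) : ∃ B : Matrix (Fin n) (Fin n) ℤ, M ^ k = 1 + q • B := by
  obtain ⟨B, hB⟩ := h
  induction k with
  | zero => exact ⟨0, by simp⟩
  | succ k ih =>
    obtain ⟨B', hB'⟩ := ih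
    refine ⟨B + B' + q • (B' * B), ?_⟩
    rw [pow_succ, hB', hB, mul_add, mul_one, add_mul, one_mul, smul_mul_smul_comm, smul_add, smul_add,
      smul_smul]
    abel

lemma expand (D : Matrix (Fin n) (Fin n) ℤ) (i : ℕ) : ∃ X : Matrix (Fin n) (Fin n) ℤ,
    (1 + D) ^ i = 1 + (i : ℤ) • D + ((i.choose 2 : ℕ) : ℤ) • D ^ 2 + D ^ 3 * X := by
  induction i with
  | zero => exact ⟨0, by simp⟩
  | succ i ih =>
    obtain ⟨X, hX⟩ := ih
    refine ⟨((i.choose 2 : ℕ) : ℤ) • 1 + X + X * D, ?_⟩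
    rw [pow_succ, hX]
    have hc : ((i + 1).choose 2 : ℕ) = i + i.choose 2 := by
      rw [Nat.choose_succ_succ' i 1, Nat.choose_one_right]
    rw [hc]
    push_cast
    simp only [mul_add, add_mul, mul_one, one_mul, smul_mul_assoc, mul_smul_comm, add_smul, one_smul,
      pow_succ, pow_zero, Matrix.mul_assoc]
    abel

/-- all entries divisible by `q` -/
lemma div_all (q : ℤ) (B : Matrix (Fin n) (Fin n) ℤ) (h : ∀ i j, q ∣ B i j) :
    ∃ B' : Matrix (Fin n) (Fin n) ℤ, B = q • B' := by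
  choose f hf using h
  refine ⟨Matrix.of f, ?_⟩
  ext i j
  rw [Matrix.smul_apply, Matrix.of_apply, smul_eq_mul]
  exact hf i j

lemma min_prime (q p : ℕ) (hq : q.Prime) (hq2 : q ≠ 2) (hp : p.Prime) (N : Matrix (Fin n) (Fin n) ℤ)
    (hN : N ^ p = 1) (h : ∃ B : Matrix (Fin n) (Fin n) ℤ, N = 1 + (q : ℤ) • B) : N = 1 := by
  by_contra hne
  obtain ⟨B₁, hB₁⟩ := h
  set D := N - 1 with hD
  have hD0 : D ≠ 0 := sub_ne_zero.2 hne
  have hN' : N = 1 + D := by rw [hD]; abel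
  have hq0 : (q : ℤ) ≠ 0 := by exact_mod_cast hq.ne_zero
  have hqpos : 2 ≤ q := hq.two_le
  -- the largest power of `q`
  have hex : ∃ r : ℕ, ¬ ∃ B : Matrix (Fin n) (Fin n) ℤ, D = ((q : ℤ) ^ r) • B := by
    obtain ⟨i, j, hij⟩ : ∃ i j, D i j ≠ 0 := by
      by_contra hc
      push Not at hc
      exact hD0 (by ext i j; exact hc i j)
    refine ⟨(D i j).natAbs, ?_⟩
    rintro ⟨B, hB⟩
    have h1 : D i j = (q : ℤ) ^ (D i j).natAbs * B i j := by
      conv_lhs => rw [hB]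
      rw [Matrix.smul_apply, smul_eq_mul]
    have h2 : (q ^ (D i j).natAbs) ∣ (D i j).natAbs := by
      have h3 : ((q : ℤ) ^ (D i j).natAbs) ∣ D i j := ⟨_, h1⟩
      have h4 := Int.natAbs_dvd_natAbs.2 h3
      rwa [Int.natAbs_pow, Int.natAbs_natCast] at h4
    have h3 := Nat.le_of_dvd (Int.natAbs_pos.2 hij) h2
    have h4 : (D i j).natAbs < q ^ (D i j).natAbs := Nat.lt_pow_self (by omega)
    omega
  classical
  set r₀ := Nat.find hex with hr₀
  have hr := Nat.find_spec hex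
  rw [← hr₀] at hr
  have h0 : r₀ ≠ 0 := by
    intro e
    apply hr
    exact ⟨D, by rw [e]; simp⟩
  have h1 : r₀ ≠ 1 := by
    intro e
    apply hr
    refine ⟨B₁, ?_⟩
    rw [e, pow_one, hD, hB₁]
    abel
  obtain ⟨r, hr'⟩ : ∃ r, r₀ = r + 2 := ⟨r₀ - 2, by omega⟩
  obtain ⟨B, hB⟩ : ∃ B : Matrix (Fin n) (Fin n) ℤ, D = ((q : ℤ) ^ (r + 1)) • B := by
    have := Nat.find_min hex (m := r + 1) (by omega)
    rwa [not_not] at this
  -- expansion
  obtain ⟨X, hX⟩ := expand D p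
  rw [← hN', hN] at hX
  have h2 : (p : ℤ) • D + ((p.choose 2 : ℕ) : ℤ) • D ^ 2 + D ^ 3 * X = 0 := by
    have : (1 : Matrix (Fin n) (Fin n) ℤ) + ((p : ℤ) • D + ((p.choose 2 : ℕ) : ℤ) • D ^ 2 + D ^ 3 * X) = 1 + 0 := by
      rw [add_zero]
      conv_rhs => rw [hX]
      abel
    exact add_left_cancel this
  have h3 : ((q : ℤ) ^ (r + 1)) • ((p : ℤ) • B + (((p.choose 2 : ℕ) : ℤ) * (q : ℤ) ^ (r + 1)) • B ^ 2 +
      ((q : ℤ) ^ (2 * r + 2)) • (B ^ 3 * X)) = 0 := by
    rw [← h2, hB, smul_pow, smul_pow, smul_mul_assoc, smul_add, smul_add, smul_smul, smul_smul, smul_smul,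
      smul_smul, smul_smul]
    congr 1
    · congr 1
      · congr 1; ring
      · congr 1; ring
    · congr 1; ring
  have h4 : (p : ℤ) • B + (((p.choose 2 : ℕ) : ℤ) * (q : ℤ) ^ (r + 1)) • B ^ 2 +
      ((q : ℤ) ^ (2 * r + 2)) • (B ^ 3 * X) = 0 :=
    (smul_eq_zero.1 h3).resolve_left (pow_ne_zero _ hq0)
  have hent : ∀ i j, (p : ℤ) * B i j + (((p.choose 2 : ℕ) : ℤ) * (q : ℤ) ^ (r + 1)) * (B ^ 2) i j +
      (q : ℤ) ^ (2 * r + 2) * (B ^ 3 * X) i j = 0 := by
    intro i j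
    have := congrFun (congrFun h4 i) j
    rw [Matrix.add_apply, Matrix.add_apply, Matrix.smul_apply, Matrix.smul_apply, Matrix.smul_apply] at this
    exact this
  have hdvd : ∀ i j, (q : ℤ) ∣ B i j := by
    intro i j
    have h5 := hent i j
    by_cases hpq : p = q
    · subst hpq
      -- `q ∣ choose q 2`
      have h6 : p ∣ p.choose 2 := hp.dvd_choose_self (by norm_num) (by omega)
      obtain ⟨c, hc⟩ := h6
      have h7 : (p : ℤ) * (B i j + (c * (p : ℤ) ^ (r + 1)) * (B ^ 2) i j +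
          (p : ℤ) ^ (2 * r + 1) * (B ^ 3 * X) i j) = 0 := by
        rw [← h5, hc]
        push_cast
        ring
      have h8 := (mul_eq_zero.1 h7).resolve_left hq0
      refine ⟨-(c * (p : ℤ) ^ r * (B ^ 2) i j + (p : ℤ) ^ (2 * r) * (B ^ 3 * X) i j), ?_⟩
      linear_combination h8
    · have h6 : (q : ℤ) ∣ (p : ℤ) * B i j := by
        refine ⟨-((((p.choose 2 : ℕ) : ℤ) * (q : ℤ) ^ r) * (B ^ 2) i j +
          (q : ℤ) ^ (2 * r + 1) * (B ^ 3 * X) i j), ?_⟩
        linear_combination h5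
      have hqP : Prime (q : ℤ) := Nat.prime_iff_prime_int.1 hq
      rcases hqP.dvd_or_dvd h6 with h7 | h7
      · exfalso
        have h8 : q ∣ p := by exact_mod_cast h7
        exact hpq ((Nat.prime_dvd_prime_iff_eq hq hp).1 h8).symm
      · exact h7
  obtain ⟨B', hB'⟩ := div_all (q : ℤ) B hdvd
  apply hr
  refine ⟨B', ?_⟩
  rw [hB, hB', smul_smul, hr']
  congr 1

theorem minkowski : S_MIN := by
  intro q n hq hq2 M t ht hMt hB
  by_contra hne
  have hfin : IsOfFinOrder M := isOfFinOrder_iff_pow_eq_one.2 ⟨t, ht, hMt⟩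
  have ho : 0 < orderOf M := hfin.orderOf_pos
  have ho1 : orderOf M ≠ 1 := fun h => hne (orderOf_eq_one_iff.1 h)
  set p := (orderOf M).minFac with hp
  have hpp : p.Prime := Nat.minFac_prime ho1
  have hpd : p ∣ orderOf M := Nat.minFac_dvd _
  obtain ⟨k, hk⟩ := hpd
  have hk0 : 0 < k := by
    rcases Nat.eq_zero_or_pos k with h | h
    · rw [h, mul_zero] at hk
      omega
    · exact h
  have hN : (M ^ k) ^ p = 1 := by
    rw [← pow_mul, mul_comm k p, ← hk, pow_orderOf_eq_one]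
  have h1 := min_prime q p hq hq2 hpp (M ^ k) hN (pow_cong q M hB k)
  have h2 : k < orderOf M := by
    rw [hk]
    nlinarith [hpp.two_le]
  exact pow_ne_one_of_lt_orderOf (by omega) h2 h1

theorem idx (hmin : S_MIN) : S_IDX := by
  intro q r n hq hq2 G _ ρ hfin
  have : Fact q.Prime := ⟨hq⟩
  let ψ : G →* ((i : Fin r) → Matrix.GeneralLinearGroup (Fin (n i)) (ZMod q)) :=
    MonoidHom.pi fun i => (Matrix.GeneralLinearGroup.map (Int.castRingHom (ZMod q))).comp (ρ i)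
  have hker : (⨅ i, (ρ i).ker) = ψ.ker := by
    ext σ
    rw [Subgroup.mem_iInf, MonoidHom.mem_ker]
    constructor
    · intro h
      funext i
      have := h i
      rw [MonoidHom.mem_ker] at this
      change Matrix.GeneralLinearGroup.map (Int.castRingHom (ZMod q)) (ρ i σ) = 1
      rw [this, map_one]
    · intro h i
      rw [MonoidHom.mem_ker]
      have h1 : Matrix.GeneralLinearGroup.map (Int.castRingHom (ZMod q)) (ρ i σ) = 1 := congrFun h i
      obtain ⟨t, ht, hσ⟩ := hfin i σ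
      apply Units.ext
      rw [Units.val_one]
      refine hmin q (n i) hq hq2 (ρ i σ : Matrix (Fin (n i)) (Fin (n i)) ℤ) t ht ?_ ?_
      · rw [← Units.val_pow_eq_pow_val, hσ, Units.val_one]
      · obtain ⟨B, hB⟩ := div_all (q : ℤ) ((ρ i σ : Matrix (Fin (n i)) (Fin (n i)) ℤ) - 1) (fun a b => by
          have h2 : (Matrix.GeneralLinearGroup.map (Int.castRingHom (ZMod q)) (ρ i σ) :
            Matrix.GeneralLinearGroup (Fin (n i)) (ZMod q)) a b = (1 : Matrix.GeneralLinearGroup (Fin (n i)) (ZMod q)) a b := by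
            rw [h1]
          rw [Matrix.GeneralLinearGroup.map_apply] at h2
          rw [← ZMod.intCast_zmod_eq_zero_iff_dvd, Matrix.sub_apply]
          push_cast
          have h3 : (((ρ i σ) a b : ℤ) : ZMod q) = ((1 : Matrix (Fin (n i)) (Fin (n i)) ℤ) a b : ℤ) := by
            refine Eq.trans h2 ?_
            rw [Units.val_one, Matrix.one_apply, Matrix.one_apply]
            split_ifs <;> simp
          rw [h3, sub_self])
        exact ⟨B, by rw [← hB]; abel⟩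
  rw [hker, Subgroup.index_ker]
  have hcard : Nat.card ((i : Fin r) → Matrix.GeneralLinearGroup (Fin (n i)) (ZMod q)) =
      ∏ i, ∏ a ∈ Finset.range (n i), (q ^ n i - q ^ a) := by
    rw [Nat.card_pi]
    refine Finset.prod_congr rfl fun i _ => ?_
    rw [Matrix.card_GL_field, ZMod.card, Finset.prod_range]
  refine ⟨?_, ?_⟩
  · exact Nat.card_pos.ne'
  · rw [← hcard]
    exact Subgroup.card_subgroup_dvd_card _

end Pool.Agent.P8H75.DV
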