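import Pool.Agent.P8H12.SO.Stm2

set_option autoImplicit false

/-!
# Project DV, package ORB
-/

namespace Pool.Agent.P8H75.DV

open Pool.Agent.P8H12.ST

lemma card_tors {V : Type} [AddCommGroup V] (m : ℕ) (hm : 0 < m) (P Q : V) (hP : (m : ℤ) • P = 0)
    (hQ : (m : ℤ) • Q = 0) (hs : ∀ R : V, (m : ℤ) • R = 0 → ∃ x y : ℤ, R = x • P + y • Q)
    (hi : ∀ x y : ℤ, x • P + y • Q = 0 → (m : ℤ) ∣ x ∧ (m : ℤ) ∣ y) :
    {v : V | (m : ℤ) • v = 0}.Finite ∧ {v : V | (m : ℤ) • v = 0}.ncard = m ^ 2 := by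
  classical
  have hm' : (0 : ℤ) < m := by exact_mod_cast hm
  set S : Finset (ℤ × ℤ) := Finset.Ico 0 (m : ℤ) ×ˢ Finset.Ico 0 (m : ℤ) with hS
  have himg : {v : V | (m : ℤ) • v = 0} = (fun z : ℤ × ℤ => z.1 • P + z.2 • Q) '' (S : Set (ℤ × ℤ)) := by
    ext v
    rw [Set.mem_ofPred_eq, Set.mem_image]
    constructor
    · intro hv
      obtain ⟨x, y, rfl⟩ := hs v hv
      refine ⟨(x % m, y % m), ?_, ?_⟩
      · rw [hS, Finset.mem_coe, Finset.mem_product, Finset.mem_Ico, Finset.mem_Ico]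
        exact ⟨⟨Int.emod_nonneg _ hm'.ne', Int.emod_lt_of_pos _ hm'⟩, Int.emod_nonneg _ hm'.ne',
          Int.emod_lt_of_pos _ hm'⟩
      · have h1 : ∀ (x : ℤ) (P : V), (m : ℤ) • P = 0 → (x % m) • P = x • P := by
          intro x P hP
          conv_rhs => rw [← Int.emod_add_mul_ediv x m]
          rw [add_smul, mul_comm, mul_smul, hP, smul_zero, add_zero]
        simp only
        rw [h1 x P hP, h1 y Q hQ]
    · rintro ⟨z, -, rfl⟩
      rw [smul_add, smul_comm, hP, smul_comm _ z.2, hQ, smul_zero, smul_zero, add_zero]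
  have hinj : Set.InjOn (fun z : ℤ × ℤ => z.1 • P + z.2 • Q) (S : Set (ℤ × ℤ)) := by
    intro z hz w hw h
    rw [hS, Finset.mem_coe, Finset.mem_product, Finset.mem_Ico, Finset.mem_Ico] at hz hw
    have h1 : (z.1 - w.1) • P + (z.2 - w.2) • Q = 0 := by
      have h2 : z.1 • P + z.2 • Q - (w.1 • P + w.2 • Q) = 0 := sub_eq_zero.2 h
      rw [← h2, sub_smul, sub_smul]
      abel
    obtain ⟨h3, h4⟩ := hi _ _ h1
    have h5 : z.1 - w.1 = 0 := Int.eq_zero_of_abs_lt_dvd h3 (by rw [abs_lt]; omega)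
    have h6 : z.2 - w.2 = 0 := Int.eq_zero_of_abs_lt_dvd h4 (by rw [abs_lt]; omega)
    exact Prod.ext (by omega) (by omega)
  constructor
  · rw [himg]
    exact S.finite_toSet.image _
  · rw [himg, hinj.ncard_image, Set.ncard_coe_finset, hS, Finset.card_product, Int.card_Ico,
      sub_zero, Int.toNat_natCast, sq]

section

variable {G V : Type} [Group G] [AddCommGroup V] (act : G → V →+ V)
  (h1 : ∀ (σ τ : G) (v : V), act (σ * τ) v = act σ (act τ v)) (h2 : ∀ v : V, act 1 v = v)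

include h1 h2 in
lemma act_inj (σ : G) : Function.Injective (act σ) := by
  intro v w h
  rw [← h2 v, ← h2 w, ← inv_mul_cancel σ, h1, h1, h]

include h1 h2 in
lemma act_order (σ : G) (v : V) : addOrderOf (act σ v) = addOrderOf v :=
  addOrderOf_injective (act σ) (act_inj act h1 h2 σ) v

end

theorem orb : S_ORB := by
  classical
  intro G V _ _ act hmul hone l a hl ha P Q hP hQ hs hi hSL H y hy
  obtain ⟨a, rfl⟩ : ∃ a', a = a' + 1 := ⟨a - 1, by omega⟩
  rw [Nat.add_sub_cancel]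
  have hl0 : 0 < l := hl.pos
  have hn0 : 0 < l ^ (a + 1) := by positivity
  let iact : MulAction G V :=
    { smul := fun σ v => act σ v
      one_smul := hone
      mul_smul := hmul }
  have hsm : ∀ (σ : G) (v : V), σ • v = act σ v := fun _ _ => rfl
  -- the torsion
  obtain ⟨hfin1, hc1⟩ := card_tors (l ^ (a + 1)) hn0 P Q hP hQ hs hi
  have hpow : ((l ^ (a + 1) : ℕ) : ℤ) = ((l ^ a : ℕ) : ℤ) * l := by push_cast; ring
  obtain ⟨hfin2, hc2⟩ := card_tors (l ^ a) (by positivity) ((l : ℤ) • P) ((l : ℤ) • Q)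
    (by rw [smul_smul, ← hpow]; exact hP) (by rw [smul_smul, ← hpow]; exact hQ)
    (by
      intro R hR
      obtain ⟨x, z, rfl⟩ := hs R (by rw [hpow, mul_comm, mul_smul, hR, smul_zero])
      have h3 : (((l ^ a : ℕ) : ℤ) * x) • P + (((l ^ a : ℕ) : ℤ) * z) • Q = 0 := by
        rw [← hR, smul_add, smul_smul, smul_smul]
      obtain ⟨h4, h5⟩ := hi _ _ h3
      rw [hpow] at h4 h5
      have hne : ((l ^ a : ℕ) : ℤ) ≠ 0 := by positivity
      obtain ⟨x', rfl⟩ := (mul_dvd_mul_iff_left hne).1 h4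
      obtain ⟨z', rfl⟩ := (mul_dvd_mul_iff_left hne).1 h5
      exact ⟨x', z', by rw [smul_smul, smul_smul, mul_comm (l : ℤ), mul_comm (l : ℤ)]⟩)
    (by
      intro x z h3
      rw [smul_smul, smul_smul] at h3
      obtain ⟨h4, h5⟩ := hi _ _ h3
      rw [hpow] at h4 h5
      have hne : (l : ℤ) ≠ 0 := by exact_mod_cast hl.ne_zero
      exact ⟨(mul_dvd_mul_iff_right hne).1 h4, (mul_dvd_mul_iff_right hne).1 h5⟩)
  -- the elements of order `l ^ (a + 1)`
  have hE : {v : V | addOrderOf v = l ^ (a + 1)} =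
      {v : V | ((l ^ (a + 1) : ℕ) : ℤ) • v = 0} \ {v : V | ((l ^ a : ℕ) : ℤ) • v = 0} := by
    ext v
    rw [Set.mem_sdiff, Set.mem_ofPred_eq, Set.mem_ofPred_eq, Set.mem_ofPred_eq, natCast_zsmul, natCast_zsmul]
    constructor
    · intro hv
      refine ⟨by rw [← hv]; exact addOrderOf_nsmul_eq_zero v, fun h => ?_⟩
      have h3 := addOrderOf_dvd_of_nsmul_eq_zero h
      rw [hv] at h3
      have h4 := Nat.le_of_dvd (by positivity) h3
      have h5 : l ^ a < l ^ (a + 1) := Nat.pow_lt_pow_right hl.one_lt (Nat.lt_succ_self a)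
      omega
    · rintro ⟨h3, h4⟩
      have : Fact l.Prime := ⟨hl⟩
      exact addOrderOf_eq_prime_pow h4 h3
  have hEcard : {v : V | addOrderOf v = l ^ (a + 1)}.ncard = l ^ (2 * a) * (l ^ 2 - 1) := by
    rw [hE, Set.ncard_sdiff _ hfin2, hc1, hc2, ← pow_mul, ← pow_mul]
    · have : l ^ ((a + 1) * 2) = l ^ (2 * a) * l ^ 2 := by rw [← pow_add]; congr 1; ring
      rw [this, mul_comm a 2, Nat.mul_sub, mul_one]
    · intro v hv
      rw [Set.mem_ofPred_eq] at hv ⊢
      rw [hpow, mul_comm, mul_smul, hv, smul_zero]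
  -- the orbit
  have hPord : addOrderOf P = l ^ (a + 1) := by
    have h3 : P ∈ {v : V | addOrderOf v = l ^ (a + 1)} := by
      rw [hE, Set.mem_sdiff, Set.mem_ofPred_eq, Set.mem_ofPred_eq]
      refine ⟨hP, fun h => ?_⟩
      have h4 := (hi ((l ^ a : ℕ) : ℤ) 0 (by rw [h, zero_smul, add_zero])).1
      have h5 : l ^ (a + 1) ∣ l ^ a := by exact_mod_cast h4
      have h6 := Nat.le_of_dvd (by positivity) h5
      have h7 : l ^ a < l ^ (a + 1) := Nat.pow_lt_pow_right hl.one_lt (Nat.lt_succ_self a)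
      omega
    exact h3
  have htrans : ∀ v : V, addOrderOf v = l ^ (a + 1) → ∃ σ : G, act σ P = v := by
    intro v hv
    have hv' : v ∈ {v : V | addOrderOf v = l ^ (a + 1)} := hv
    rw [hE, Set.mem_sdiff, Set.mem_ofPred_eq, Set.mem_ofPred_eq] at hv'
    obtain ⟨x, z, rfl⟩ := hs v hv'.1
    have hnot : ¬ ((l : ℤ) ∣ x ∧ (l : ℤ) ∣ z) := by
      rintro ⟨⟨x', rfl⟩, z', rfl⟩
      apply hv'.2
      rw [smul_add, smul_smul, smul_smul, ← mul_assoc, ← mul_assoc, ← hpow, mul_comm, mul_smul, hP, smul_zero,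
        mul_comm _ z', mul_smul, hQ, smul_zero, add_zero]
    have hcop : ∀ w : ℤ, ¬ (l : ℤ) ∣ w → ∃ d : ℤ, ((l ^ (a + 1) : ℕ) : ℤ) ∣ w * d - 1 := by
      intro w hw
      have h3 : IsCoprime ((l : ℤ) ^ (a + 1)) w :=
        IsCoprime.pow_left ((Nat.prime_iff_prime_int.1 hl).coprime_iff_not_dvd.2 hw)
      obtain ⟨u, d, hud⟩ := h3
      refine ⟨d, -u, ?_⟩
      push_cast
      linear_combination hud
    rw [not_and_or] at hnot
    rcases hnot with h3 | h3
    · obtain ⟨d, hd⟩ := hcop x h3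
      obtain ⟨σ, hσ, -⟩ := hSL x 0 z d (by rwa [zero_mul, sub_zero])
      exact ⟨σ, hσ⟩
    · obtain ⟨d, hd⟩ := hcop z h3
      obtain ⟨σ, hσ, -⟩ := hSL x (-d) z 0 (by
        have e : x * 0 - -d * z - 1 = z * d - 1 := by ring
        rwa [e])
      exact ⟨σ, hσ⟩
  have horb : MulAction.orbit G y = {v : V | addOrderOf v = l ^ (a + 1)} := by
    ext v
    rw [MulAction.mem_orbit_iff, Set.mem_ofPred_eq]
    constructor
    · rintro ⟨σ, rfl⟩
      rw [hsm, act_order act hmul hone, hy]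
    · intro hv
      obtain ⟨σ, hσ⟩ := htrans v hv
      obtain ⟨τ, hτ⟩ := htrans y hy
      refine ⟨σ * τ⁻¹, ?_⟩
      rw [hsm, hmul, ← hτ, ← hmul τ⁻¹ τ, inv_mul_cancel, hone, hσ]
  have hindS : (MulAction.stabilizer G y).index = l ^ (2 * a) * (l ^ 2 - 1) := by
    rw [MulAction.index_stabilizer, horb, hEcard]
  -- divisibility
  have hdiv : l ^ (2 * a) * (l ^ 2 - 1) ∣ (MulAction.stabilizer G y).relIndex H * H.index := by
    rw [← hindS, ← Subgroup.inf_relIndex_right, Subgroup.relIndex_mul_index inf_le_right]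
    exact Subgroup.index_dvd_of_le inf_le_left
  -- the character
  have hchar : (∀ τ ∈ H, act τ y ∈ AddSubgroup.zmultiples y) →
      ∃ χ : H →* (ZMod (l ^ (a + 1)))ˣ, χ.ker = (MulAction.stabilizer G y).subgroupOf H ∧
        ∀ τ : H, ∀ m : ℤ, act τ y = m • y → ((χ τ : (ZMod (l ^ (a + 1)))ˣ) : ZMod (l ^ (a + 1))) = m := by
    intro hH
    have hex : ∀ τ : H, ∃ m : ℤ, m • y = act τ y := fun τ => AddSubgroup.mem_zmultiples_iff.1 (hH τ τ.2)
    choose μ hμ using hex
    have huniq : ∀ m m' : ℤ, m • y = m' • y → ((m : ℤ) : ZMod (l ^ (a + 1))) = m' := by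
      intro m m' h
      rw [ZMod.intCast_eq_intCast_iff_dvd_sub, ← hy]
      rw [addOrderOf_dvd_iff_zsmul_eq_zero, sub_smul, h, sub_self]
    let χ₀ : H →* ZMod (l ^ (a + 1)) :=
      { toFun := fun τ => ((μ τ : ℤ) : ZMod (l ^ (a + 1)))
        map_one' := by
          have h3 : μ 1 • y = (1 : ℤ) • y := by
            rw [hμ, one_smul]
            exact hone y
          have := huniq _ _ h3
          rw [this, Int.cast_one]
        map_mul' := by
          intro σ τ
          have h3 : μ (σ * τ) • y = (μ σ * μ τ) • y := by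
            rw [hμ]
            change act (σ.1 * τ.1) y = _
            rw [hmul, ← hμ τ, map_zsmul, ← hμ σ, smul_smul, mul_comm]
          have := huniq _ _ h3
          rw [this, Int.cast_mul] }
    refine ⟨χ₀.toHomUnits, ?_, ?_⟩
    · ext τ
      rw [MonoidHom.mem_ker, Subgroup.mem_subgroupOf, MulAction.mem_stabilizer_iff, hsm]
      rw [← Units.val_inj, MonoidHom.coe_toHomUnits, Units.val_one]
      change ((μ τ : ℤ) : ZMod (l ^ (a + 1))) = 1 ↔ _
      constructor
      · intro h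
        have h3 : ((μ τ : ℤ) : ZMod (l ^ (a + 1))) = ((1 : ℤ) : ZMod (l ^ (a + 1))) := by rw [h, Int.cast_one]
        rw [ZMod.intCast_eq_intCast_iff_dvd_sub, ← hy, addOrderOf_dvd_iff_zsmul_eq_zero, sub_smul, one_smul,
          sub_eq_zero, hμ] at h3
        exact h3.symm
      · intro h
        have := huniq (μ τ) 1 (by rw [hμ, h, one_smul])
        rw [this, Int.cast_one]
    · intro τ m hm
      rw [MonoidHom.coe_toHomUnits]
      exact huniq _ _ (by rw [hμ, hm])
  have : NeZero (l ^ (a + 1)) := ⟨hn0.ne'⟩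
  constructor
  · intro hH
    obtain ⟨χ, hχ, -⟩ := hchar hH
    have h3 : (MulAction.stabilizer G y).relIndex H ∣ l ^ a * (l - 1) := by
      unfold Subgroup.relIndex
      rw [← hχ, Subgroup.index_ker]
      have h4 := Subgroup.card_subgroup_dvd_card χ.range
      rw [Nat.card_eq_fintype_card (α := (ZMod (l ^ (a + 1)))ˣ), ZMod.card_units_eq_totient, Nat.totient_prime_pow hl (Nat.succ_pos a),
        Nat.succ_sub_one] at h4
      exact h4
    have h5 : l ^ (2 * a) * (l ^ 2 - 1) = (l ^ a * (l - 1)) * (l ^ a * (l + 1)) := by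
      have h6 : l ^ 2 - 1 = (l - 1) * (l + 1) := by
        have := Nat.sq_sub_sq l 1
        rw [one_pow] at this
        rw [this, mul_comm]
      rw [h6, two_mul, pow_add]
      ring
    have h7 : (l ^ a * (l - 1)) * (l ^ a * (l + 1)) ∣ (l ^ a * (l - 1)) * H.index := by
      rw [← h5]
      exact hdiv.trans (mul_dvd_mul_right h3 _)
    have h8 : 0 < l ^ a * (l - 1) := by
      have : 0 < l - 1 := by have := hl.one_lt; omega
      positivity
    exact (Nat.mul_dvd_mul_iff_left h8).1 h7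
  · intro hH
    obtain ⟨χ, hχ, hχ'⟩ := hchar (fun τ hτ => by
      rcases hH τ hτ with h | h
      · rw [h]; exact AddSubgroup.mem_zmultiples y
      · rw [h]; exact neg_mem (AddSubgroup.mem_zmultiples y))
    have h3 : (MulAction.stabilizer G y).relIndex H ∣ 2 := by
      unfold Subgroup.relIndex
      rw [← hχ, Subgroup.index_ker]
      have h4 : χ.range ≤ Subgroup.zpowers (-1 : (ZMod (l ^ (a + 1)))ˣ) := by
        rintro _ ⟨τ, rfl⟩
        rcases hH τ τ.2 with h | h
        · have h5 := hχ' τ 1 (by rw [h, one_smul])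
          have h6 : χ τ = 1 := Units.ext (by rw [h5]; simp)
          rw [h6]
          exact one_mem _
        · have h5 := hχ' τ (-1) (by rw [h, neg_smul, one_smul])
          have h6 : χ τ = -1 := Units.ext (by rw [h5]; simp)
          rw [h6]
          exact Subgroup.mem_zpowers _
      have h5 := Subgroup.card_dvd_of_le h4
      rw [Nat.card_zpowers] at h5
      refine h5.trans (orderOf_dvd_of_pow_eq_one ?_)
      simp
    exact hdiv.trans (mul_dvd_mul_right h3 _)

end Pool.Agent.P8H75.DV
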